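import Pool.Agent.W611.RO.Stms
import Pool.Agent.H270R3.CT.Abs2

/-! # The abstract theorem (RO-ABS) -/

set_option autoImplicit false
open scoped ComplexConjugate InnerProductSpace Topology
open Filter MeasureTheory NormedSpace

namespace Pool.Agent.W338.RO
open Pool.Agent.H712R5.BO Pool.Agent.H417B Pool.Agent.W611.RO

section
variable {H : Type} [NormedAddCommGroup H] [InnerProductSpace ℂ H] [CompleteSpace H]

/-- convergence on a total family and boundedness imply strong convergence -/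
theorem strong_lim {J : Type} (w : J → H) (hw : ∀ x : H, (∀ r, ⟪x, w r⟫_ℂ = 0) → x = 0)
    (A : ℕ → (H →L[ℂ] H)) (R : ℝ) (hR : ∀ i, ‖A i‖ ≤ R)
    (hb : ∀ r : J, ∃ y : H, Tendsto (fun i => A i (w r)) atTop (𝓝 y)) :
    ∃ X : H →L[ℂ] H, ∀ v, Tendsto (fun i => A i v) atTop (𝓝 (X v)) := by
  let K : Submodule ℂ H :=
    { carrier := {v | ∃ w, Tendsto (fun i => A i v) atTop (𝓝 w)}
      add_mem' := by
        rintro v v' ⟨w, hw⟩ ⟨w', hw'⟩
        exact ⟨w + w', by simpa using hw.add hw'⟩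
      zero_mem' := ⟨0, by simp⟩
      smul_mem' := by
        rintro c v ⟨w, hw⟩
        exact ⟨c • w, by simpa using hw.const_smul c⟩ }
  have hspan : Submodule.span ℂ (Set.range w) ≤ K := Submodule.span_le.2 (by
    rintro _ ⟨r, rfl⟩
    exact hb r)
  have hdense : (Submodule.span ℂ (Set.range w)).topologicalClosure = ⊤ := by
    rw [Submodule.topologicalClosure_eq_top_iff, Submodule.eq_bot_iff]
    intro x hx
    apply hw
    intro r
    have h1 := Submodule.mem_orthogonal _ x |>.1 hx (w r) (Submodule.subset_span ⟨r, rfl⟩)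
    rw [← inner_conj_symm, h1, map_zero]
  have hR0 : 0 ≤ R := (norm_nonneg _).trans (hR 0)
  have hall : ∀ v, ∃ w, Tendsto (fun i => A i v) atTop (𝓝 w) := by
    intro v
    apply cauchySeq_tendsto_of_complete
    rw [Metric.cauchySeq_iff]
    intro ε hε
    have hv : v ∈ closure (Submodule.span ℂ (Set.range w) : Set H) := by
      rw [← Submodule.topologicalClosure_coe, hdense]
      trivial
    obtain ⟨u, hu, hdu⟩ := Metric.mem_closure_iff.1 hv (ε / (4 * (R + 1))) (by positivity)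
    obtain ⟨w, hw⟩ := hspan hu
    have hc := hw.cauchySeq
    rw [Metric.cauchySeq_iff] at hc
    obtain ⟨n, hn⟩ := hc (ε / 2) (by positivity)
    refine ⟨n, fun i hi j hj => ?_⟩
    have h1 := hn i hi j hj
    rw [dist_eq_norm] at h1 hdu ⊢
    have h2 : ∀ l, ‖A l (v - u)‖ ≤ ε / 4 := by
      intro l
      calc ‖A l (v - u)‖ ≤ ‖A l‖ * ‖v - u‖ := (A l).le_opNorm _
        _ ≤ (R + 1) * (ε / (4 * (R + 1))) := by
            have := hR l
            gcongr
            linarith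
        _ = ε / 4 := by field_simp
    have h3 : A i v - A j v = A i (v - u) + (A i u - A j u) - A j (v - u) := by
      rw [map_sub, map_sub]
      abel
    rw [h3]
    calc ‖A i (v - u) + (A i u - A j u) - A j (v - u)‖
        ≤ ‖A i (v - u) + (A i u - A j u)‖ + ‖A j (v - u)‖ := norm_sub_le _ _
      _ ≤ ‖A i (v - u)‖ + ‖A i u - A j u‖ + ‖A j (v - u)‖ := by
          gcongr
          exact norm_add_le _ _
      _ < ε := by
          have := h2 i
          have := h2 j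
          linarith
  choose f hf using hall
  exact ⟨continuousLinearMapOfTendsto A (tendsto_pi_nhds.2 hf), fun v => hf v⟩

theorem e_cont {A : Type} [CStarAlgebra A] (e : A →⋆ₐ[ℂ] (H →L[ℂ] H)) : Continuous e :=
  AddMonoidHomClass.continuous_of_bound e 1 fun a => by
    rw [one_mul]
    exact NonUnitalStarAlgHom.norm_apply_le e a

theorem e_Lg {A : Type} [CStarAlgebra A] (e : A →⋆ₐ[ℂ] (H →L[ℂ] H)) (z : ℂ) (S : A) :
    e (Lg (ex z S)) = Lg (ex z (e S)) := by
  let _ : NormedAlgebra ℚ A := NormedAlgebra.restrictScalars ℚ ℂ A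
  let _ : NormedAlgebra ℚ (H →L[ℂ] H) := NormedAlgebra.restrictScalars ℚ ℂ (H →L[ℂ] H)
  have e1 : e (ex z S) = ex z (e S) := by
    unfold ex
    rw [NormedSpace.map_exp _ (e_cont e), map_smul]
  have hu : IsUnit (ex z S) := by
    unfold ex
    exact NormedSpace.isUnit_exp _
  unfold Lg CFC.log
  rw [StarAlgHomClass.map_cfc e Real.log _ (Pool.Agent.H270R3.CT.log_unit _ hu) (e_cont e)
    (IsSelfAdjoint.star_mul_self _) ((IsSelfAdjoint.star_mul_self _).map e), map_mul, map_star, e1]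

end

theorem low {R : ℝ} (hR : 0 ≤ R) {M k : ℕ} (hM : 8 * Real.pi * R + 1 ≤ M) (hk : 6 + M ≤ k)
    {s : ℝ}
    (h1 : 0 ≤ 2 * Real.log (ck k) + 4 * Real.pi * k * R / M + M * Real.log 2 + s) :
    (k : ℝ) / 2 ≤ s := by
  have hpi := Real.pi_pos
  have hM1' : (1 : ℝ) ≤ M := by
    have : 0 ≤ 8 * Real.pi * R := by positivity
    linarith
  have hM0 : (0 : ℝ) < M := by linarith
  have hk1 : 1 ≤ k := by omega
  have hk0 : (0 : ℝ) < k := by exact_mod_cast hk1
  have hk6 : (6 : ℝ) + M ≤ k := by exact_mod_cast hk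
  have hf : (0 : ℝ) < (k.factorial : ℝ) := by exact_mod_cast k.factorial_pos
  have h2 : Real.log (ck k) = Real.log (k.factorial : ℝ) - k * Real.log k := by
    rw [ck, Real.log_div hf.ne' (by positivity), Real.log_pow]
  have h3 := D8_fact k hk1
  have h4 : Real.log (ck k) ≤ Real.log k - k + 1 := by
    rw [h2]
    linarith
  have h5 : Real.log k ≤ k / 8 + 3 * Real.log 2 - 1 := by
    have h6 := Real.log_le_sub_one_of_pos (show (0 : ℝ) < k / 8 by positivity)
    have h7 : Real.log ((k : ℝ) / 8) = Real.log k - 3 * Real.log 2 := by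
      rw [Real.log_div hk0.ne' (by norm_num), show (8 : ℝ) = 2 ^ 3 by norm_num, Real.log_pow]
      norm_num
    linarith
  have hl := Real.log_two_lt_d9
  have h8 : 4 * Real.pi * k * R / M ≤ k / 2 := by
    rw [div_le_iff₀ hM0]
    have : 8 * Real.pi * R ≤ M := by linarith
    nlinarith
  have h9 : (6 + (M : ℝ)) * Real.log 2 ≤ 0.7 * k := by
    have h10 : (6 + (M : ℝ)) * Real.log 2 ≤ k * Real.log 2 :=
      mul_le_mul_of_nonneg_right hk6 (by linarith [Real.log_two_gt_d9])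
    nlinarith
  nlinarith

/-- summable square norms give almost everywhere summability -/
theorem ae_sum {Y : Type} [MeasurableSpace Y] (ν : Measure Y) (f : ℕ → Y → ℝ)
    (h0 : ∀ i y, 0 ≤ f i y) (hi : ∀ i, Integrable (fun y => f i y ^ 2) ν)
    (h : ∀ i, ∫ y, f i y ^ 2 ∂ν ≤ (1 / 4 : ℝ) ^ i) :
    ∀ᵐ y ∂ν, Summable fun i => f i y := by
  have hint : ∀ i, Integrable (fun y => (2 : ℝ) ^ i * f i y ^ 2) ν := fun i => (hi i).const_mul _
  have hle : ∀ i, ∫ y, (2 : ℝ) ^ i * f i y ^ 2 ∂ν ≤ (1 / 2 : ℝ) ^ i := by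
    intro i
    rw [integral_const_mul]
    calc (2 : ℝ) ^ i * ∫ y, f i y ^ 2 ∂ν ≤ 2 ^ i * (1 / 4) ^ i := by
          gcongr
          exact h i
      _ = (1 / 2) ^ i := by rw [← mul_pow]; norm_num
  have hl : ∀ i, ∫⁻ y, ENNReal.ofReal ((2 : ℝ) ^ i * f i y ^ 2) ∂ν
      ≤ ENNReal.ofReal ((1 / 2 : ℝ) ^ i) := by
    intro i
    rw [← ofReal_integral_eq_lintegral_ofReal (hint i)
      (Eventually.of_forall fun y => by positivity)]
    exact ENNReal.ofReal_le_ofReal (hle i)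
  have hgeo : Summable fun i : ℕ => (1 / 2 : ℝ) ^ i :=
    summable_geometric_of_lt_one (by norm_num) (by norm_num)
  have hsum : ∫⁻ y, ∑' i, ENNReal.ofReal ((2 : ℝ) ^ i * f i y ^ 2) ∂ν ≠ ⊤ := by
    rw [lintegral_tsum fun i => (hint i).aestronglyMeasurable.aemeasurable.ennreal_ofReal]
    refine ne_top_of_le_ne_top ?_ (ENNReal.tsum_le_tsum hl)
    rw [← ENNReal.ofReal_tsum_of_nonneg (fun i => by positivity) hgeo]
    exact ENNReal.ofReal_ne_top
  have hae := ae_lt_top' (AEMeasurable.tsum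
    fun i => (hint i).aestronglyMeasurable.aemeasurable.ennreal_ofReal) hsum
  filter_upwards [hae] with y hy
  have h1 : Summable fun i => (2 : ℝ) ^ i * f i y ^ 2 := by
    refine (ENNReal.summable_toReal hy.ne).congr fun i => ?_
    exact ENNReal.toReal_ofReal (by positivity)
  refine Summable.of_nonneg_of_le (fun i => h0 i y) (fun i => ?_) (h1.add hgeo)
  have h2 : (2 : ℝ) ^ i * (1 / 2) ^ i = 1 := by rw [← mul_pow]; norm_num
  have h3 : (0 : ℝ) < (1 / 2) ^ i := by positivity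
  generalize (2 : ℝ) ^ i = a at h2 ⊢
  generalize (1 / 2 : ℝ) ^ i = b at h2 h3 ⊢
  have h4 : a * f i y ^ 2 + b - f i y = b * ((a * f i y - 1 / 2) ^ 2 + 3 / 4) := by
    linear_combination (-(a * f i y ^ 2) + f i y) * h2
  have h5 : 0 ≤ b * ((a * f i y - 1 / 2) ^ 2 + 3 / 4) := by positivity
  linarith

theorem rt_norm (M j : ℕ) : ‖rt M j‖ = 1 := by
  unfold rt
  have h1 : (2 * Real.pi * Complex.I * j / M : ℂ) = ((2 * Real.pi * j / M : ℝ) : ℂ) * Complex.I := by
    push_cast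
    ring
  rw [h1, Complex.norm_exp_ofReal_mul_I]

theorem t_ABS : P_ABS := by
  intro Y _ ν _ J _ H _ _ _ A _ τ e w v hτ hv hw hmeas htau hn2 h01 T hdet
  have hB2 : P_B2 := t_B2 t_B2a t_B1
  have hB3 : P_B3 := t_B3 t_B1 hB2 t_B2c
  have hB4u : P_B4u := t_B4u t_B1 t_B4v
  have hB4 : P_B4 := t_B4 t_B1 hB3 hB4u
  have hB5 : P_B5 := t_B5 t_B1 hB4 hB4u
  have hB6 : P_B6 := t_B6 t_B1 hB4u hB5
  have hB8 : P_B8 := t_B8 hB6 (t_B7 t_B1)
  have hB9 : P_B9 := t_B9 t_B1 hB4u hB8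
  have hB12 : P_B12 := t_B12 t_B1 t_B10 (t_B11 hB4 hB9)
  have hB13 : P_B13 := t_B13 hB2
  have hD2 : P_D2 := t_D2 hB2 t_D1
  have hD7 : P_D7 := t_D7 hB4u t_D1 (t_D3 hD2) (t_D4 t_B1) (t_D6 t_D5)
  have hC12 : P_C12H := t_C12H t_B4v t_C10 t_C11
  have hB1 := t_B1 A τ hτ
  obtain ⟨S, hS⟩ : ∃ S : A, S = T - τ T • (1 : A) := ⟨_, rfl⟩
  rw [← hS] at hdet
  have hS0 : τ S = 0 := by
    have h1 : τ (τ T • (1 : A)) = τ T • τ 1 := τ.map_smul _ _
    rw [hS, map_sub, h1, hτ.one, smul_eq_mul, mul_one, sub_self]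
  obtain ⟨M, hM⟩ := exists_nat_ge (8 * Real.pi * ‖S‖ + 1)
  have hM1 : 1 ≤ M := by
    have : (1 : ℝ) ≤ M := by
      have : 0 ≤ 8 * Real.pi * ‖S‖ := by positivity
      linarith
    exact_mod_cast this
  -- the operators
  obtain ⟨z, hz⟩ : ∃ z : Fin M → ℂ, z = fun j : Fin M => rt M (j : ℕ) := ⟨_, rfl⟩
  have hz1 : ∀ j, ‖z j‖ = 1 := fun j => by rw [hz]; exact rt_norm M j
  obtain ⟨B, hB⟩ : ∃ B : Fin M → ℕ → A,
    B = fun (j : Fin M) (k : ℕ) => (1 / (k : ℝ)) • Lg (ex (k : ℂ) (z j • S)) := ⟨_, rfl⟩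
  have hBn : ∀ j k, 1 ≤ k → ‖B j k‖ ≤ 2 * ‖S‖ := by
    intro j k hk
    have hk0 : (0 : ℝ) < k := by exact_mod_cast hk
    have h1 := (t_B4v A).2.2.2.2 ((k : ℂ) • (z j • S))
    rw [norm_smul, norm_smul, hz1, one_mul, Complex.norm_natCast] at h1
    rw [hB]
    show ‖(1 / (k : ℝ)) • Lg (ex (k : ℂ) (z j • S))‖ ≤ 2 * ‖S‖
    rw [norm_smul, Real.norm_eq_abs, abs_of_pos (by positivity)]
    calc 1 / (k : ℝ) * ‖Lg (ex (k : ℂ) (z j • S))‖ ≤ 1 / (k : ℝ) * (2 * (k * ‖S‖)) := by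
          gcongr
          exact h1
      _ = 2 * ‖S‖ := by field_simp
  have hBsa : ∀ j k, IsSelfAdjoint (B j k) := by
    intro j k
    rw [hB]
    exact IsSelfAdjoint.smul (IsSelfAdjoint.all _) ((t_B4v A).1 _)
  have hBtr : ∀ j k, τ (B j k) = 0 := by
    intro j k
    apply Complex.ext
    · have h1 : B j k = ((1 / (k : ℝ) : ℝ) : ℂ) • Lg (ex (k : ℂ) (z j • S)) := by
        rw [hB, Complex.coe_smul]
      have h2 := τ.map_smul ((1 / (k : ℝ) : ℝ) : ℂ) (Lg (ex (k : ℂ) (z j • S)))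
      have h3 := hB13 A τ hτ ((k : ℂ) • (z j • S))
      have h4 : τ ((k : ℂ) • (z j • S)) = 0 := by
        have h5 := τ.map_smul (k : ℂ) (z j • S)
        have h6 := τ.map_smul (z j) S
        rw [h5, h6, hS0, smul_zero, smul_zero]
      rw [h4, Complex.zero_re, mul_zero] at h3
      have h5 : (τ (Lg (ex (k : ℂ) (z j • S)))).re = 0 := h3
      rw [h1, h2, smul_eq_mul, Complex.re_ofReal_mul, h5, mul_zero]
      rfl
    · have h1 := hτ.herm (B j k)
      rw [(hBsa j k).star_eq] at h1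
      have h2 := congrArg Complex.im h1
      rw [Complex.conj_im] at h2
      show (τ (B j k)).im = 0
      linarith
  have hNN : ∀ (j : Fin M) (k : ℕ), 1 ≤ k → NN τ (ex (k * rt M j) S) = k * n2 τ (B j k) := by
    intro j k hk
    have hk0 : (0 : ℝ) < k := by exact_mod_cast hk
    have h1 : ex (k * rt M j) S = ex (k : ℂ) (z j • S) := by
      unfold ex
      rw [hz, smul_smul]
    have h2 : n2 τ (B j k) = |1 / (k : ℝ)| * n2 τ (Lg (ex (k : ℂ) (z j • S))) := by
      rw [hB]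
      exact hB1.2.2.2.1 _ _
    rw [h1, h2, abs_of_pos (by positivity)]
    unfold NN
    field_simp
  have hlow : ∀ k, 6 + M ≤ k → 1 / 2 ≤ ∑ j, n2 τ (B j k) := by
    intro k hk
    have hk1 : 1 ≤ k := by omega
    have hk0 : (0 : ℝ) < k := by exact_mod_cast hk1
    have h1 := hD7 A τ hτ S k M hk1 hM1
    have h2 := hdet k ((ck k) ^ 2) hk1 (by
      have := Pool.Agent.H270R3.CT.ck_pos k hk1
      positivity)
    have h3 : ∑ j : Fin M, NN τ (ex (k * rt M j) S) = k * ∑ j, n2 τ (B j k) := by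
      rw [Finset.mul_sum]
      exact Finset.sum_congr rfl fun j _ => hNN j k hk1
    rw [h3] at h1
    have h4 := low (norm_nonneg S) hM hk (h2.trans h1)
    have h5 : (k : ℝ) * (1 / 2) ≤ k * ∑ j, n2 τ (B j k) := by linarith
    exact le_of_mul_le_mul_left h5 hk0
  -- the subsequence
  have hC : ∀ i : ℕ, ∃ K : ℕ, ∀ j, ∀ k ≥ K, ∀ m ≥ K, n2 τ (B j k - B j m) < (1 / 2 : ℝ) ^ i := by
    intro i
    choose K hK using fun j : Fin M => hB12 A τ hτ (z j • S) ((1 / 2 : ℝ) ^ i) (by positivity)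
    refine ⟨∑ j, K j, fun j k hk m hm => ?_⟩
    have h1 : K j ≤ ∑ j, K j :=
      Finset.single_le_sum (fun _ _ => Nat.zero_le _) (Finset.mem_univ j)
    rw [hB]
    exact (hK j).2 k (h1.trans hk) m (h1.trans hm)
  choose K hK using hC
  obtain ⟨φ, hφ⟩ : ∃ φ : ℕ → ℕ, φ = fun n => n + 1 + ∑ i ∈ Finset.range (n + 1), K i := ⟨_, rfl⟩
  have hφm : StrictMono φ := by
    refine strictMono_nat_of_lt_succ fun n => ?_
    rw [hφ]
    show n + 1 + ∑ i ∈ Finset.range (n + 1), K i < n + 1 + 1 + ∑ i ∈ Finset.range (n + 1 + 1), K i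
    rw [Finset.sum_range_succ K (n + 1)]
    omega
  have hφ1 : ∀ i, 1 ≤ φ i := by
    intro i
    rw [hφ]
    show 1 ≤ i + 1 + _
    omega
  have hφi : ∀ i, i ≤ φ i := by
    intro i
    rw [hφ]
    show i ≤ i + 1 + _
    omega
  have hφK : ∀ i, K i ≤ φ i := by
    intro i
    rw [hφ]
    show K i ≤ i + 1 + ∑ i ∈ Finset.range (i + 1), K i
    have : K i ≤ ∑ i ∈ Finset.range (i + 1), K i :=
      Finset.single_le_sum (fun _ _ => Nat.zero_le _) (Finset.self_mem_range_succ i)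
    omega
  have hae : ∀ᵐ y ∂ν, ∀ (j : Fin M) (r : J),
      ∃ x : H, Tendsto (fun i => e y (B j (φ i)) (w r)) atTop (𝓝 x) := by
    rw [ae_all_iff]
    intro j
    rw [ae_all_iff]
    intro r
    have h1 := ae_sum ν (fun i y => ‖e y (B j (φ (i + 1)) - B j (φ i)) (w r)‖)
      (fun _ _ => norm_nonneg _) (fun i => (hn2 _ r).1) (fun i => by
        refine (hn2 _ r).2.trans ?_
        have h2 := hK i j (φ (i + 1)) ((hφK i).trans (hφm (Nat.lt_succ_self i)).le) (φ i) (hφK i)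
        have h3 : 0 ≤ n2 τ (B j (φ (i + 1)) - B j (φ i)) := hB1.2.2.2.2.2.2.2.2.1 _
        calc n2 τ (B j (φ (i + 1)) - B j (φ i)) ^ 2 ≤ ((1 / 2 : ℝ) ^ i) ^ 2 := by gcongr
          _ = (1 / 4) ^ i := by rw [← pow_mul, mul_comm, pow_mul]; norm_num)
    filter_upwards [h1] with y hy
    have h2 : Summable fun i => e y (B j (φ (i + 1)) - B j (φ i)) (w r) := Summable.of_norm hy
    obtain ⟨s, hs⟩ := h2
    have h3 := hs.tendsto_sum_nat
    refine ⟨s + e y (B j (φ 0)) (w r), ?_⟩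
    have h4 : ∀ n, ∑ i ∈ Finset.range n, e y (B j (φ (i + 1)) - B j (φ i)) (w r)
        = e y (B j (φ n)) (w r) - e y (B j (φ 0)) (w r) := by
      intro n
      rw [← Finset.sum_range_sub (fun i => e y (B j (φ i)) (w r))]
      refine Finset.sum_congr rfl fun i _ => ?_
      rw [map_sub]
      rfl
    refine (h3.add_const (e y (B j (φ 0)) (w r))).congr fun n => ?_
    rw [h4, sub_add_cancel]
  have hen : ∀ y j i, ‖e y (B j (φ i))‖ ≤ 2 * ‖S‖ := fun y j i =>
    (NonUnitalStarAlgHom.norm_apply_le (e y) _).trans (hBn j _ (hφ1 i))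
  have heB : ∀ y j i, e y (B j (φ i)) = (1 / (φ i : ℝ)) • Lg (ex (φ i : ℂ) (z j • e y S)) := by
    intro y j i
    have h1 : B j (φ i) = ((1 / (φ i : ℝ) : ℝ) : ℂ) • Lg (ex (φ i : ℂ) (z j • S)) := by
      rw [hB, Complex.coe_smul]
    rw [h1, map_smul, e_Lg, map_smul, Complex.coe_smul]
  by_cases hcase : ∃ j : Fin M, ∀ᵐ y ∂ν, ¬ ∃ c : ℂ, ∀ x : H,
      Tendsto (fun i => e y (B j (φ i)) x) atTop (𝓝 (c • x))
  · obtain ⟨j, hj⟩ := hcase
    filter_upwards [hae, hj] with y hy hyj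
    obtain ⟨X, hX⟩ := strong_lim w hw (fun i => e y (B j (φ i))) (2 * ‖S‖) (hen y j) (hy j)
    have hs : ¬ ∃ c : ℂ, X = c • 1 := by
      rintro ⟨c, hc⟩
      apply hyj
      refine ⟨c, fun x => ?_⟩
      have := hX x
      rw [hc] at this
      simpa using this
    obtain ⟨V, hVc, hVb, hVt, hVi⟩ := hC12 H (z j • e y S) φ hφm hφ1 X
      (fun x => by
        have h1 := hX x
        simp_rw [heB] at h1
        exact h1) hs
    refine ⟨V, hVc, hVb, hVt, fun R hR x hx => hVi R ?_ x hx⟩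
    have hSe : e y S = e y T - τ T • 1 := by rw [hS, map_sub, map_smul, map_one]
    rw [mul_smul_comm, smul_mul_assoc, hSe, mul_sub, sub_mul, hR, mul_smul_comm, smul_mul_assoc,
      mul_one, one_mul]
  · exfalso
    have hc : ∀ j : Fin M, ∃ c : ℂ, ∀ᵐ y ∂ν, ∀ x : H,
        Tendsto (fun i => e y (B j (φ i)) x) atTop (𝓝 (c • x)) := fun j =>
      (h01 (fun i => B j (φ i)) (2 * ‖S‖) (fun i => hBn j _ (hφ1 i))).resolve_left
        fun h => hcase ⟨j, h⟩
    choose c hc using hc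
    have hvv : ⟪v, v⟫_ℂ = 1 := by
      rw [inner_self_eq_norm_sq_to_K, hv]
      simp
    have hc0 : ∀ j, c j = 0 := by
      intro j
      have h1 : Tendsto (fun i => ∫ y, ⟪v, e y (B j (φ i)) v⟫_ℂ ∂ν) atTop
          (𝓝 (∫ _y, c j ∂ν)) := by
        refine tendsto_integral_of_dominated_convergence (fun _ => 2 * ‖S‖)
          (fun i => (htau _).1.aestronglyMeasurable) (integrable_const _)
          (fun i => Eventually.of_forall fun y => ?_) ?_
        · calc ‖⟪v, e y (B j (φ i)) v⟫_ℂ‖ ≤ ‖v‖ * ‖e y (B j (φ i)) v‖ := norm_inner_le_norm _ _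
            _ ≤ ‖v‖ * ((2 * ‖S‖) * ‖v‖) := by
                gcongr
                exact ((e y (B j (φ i))).le_opNorm _).trans (by
                  gcongr
                  exact hen y j i)
            _ = 2 * ‖S‖ := by rw [hv, one_mul, mul_one]
        · filter_upwards [hc j] with y hy
          have h2 : Tendsto (fun i => ⟪v, e y (B j (φ i)) v⟫_ℂ) atTop (𝓝 ⟪v, c j • v⟫_ℂ) :=
            (tendsto_const_nhds).inner (hy v)
          rwa [inner_smul_right, hvv, mul_one] at h2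
      have h2 : ∀ i, ∫ y, ⟪v, e y (B j (φ i)) v⟫_ℂ ∂ν = 0 := fun i => by
        rw [← (htau _).2, hBtr]
      simp only [h2] at h1
      have h3 := tendsto_nhds_unique h1 tendsto_const_nhds
      rw [integral_const] at h3
      simpa using h3
    have hsq : ∀ a : A, n2 τ a ^ 2 = ∫ y, ‖e y a v‖ ^ 2 ∂ν := by
      intro a
      rw [hB1.2.2.2.2.2.2.2.2.2.2, (htau _).2]
      have h1 : ∀ y, ⟪v, e y (star a * a) v⟫_ℂ = ((‖e y a v‖ ^ 2 : ℝ) : ℂ) := by
        intro y
        rw [map_mul, map_star]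
        show ⟪v, star (e y a) (e y a v)⟫_ℂ = _
        rw [ContinuousLinearMap.star_eq_adjoint, ContinuousLinearMap.adjoint_inner_right,
          inner_self_eq_norm_sq_to_K]
        push_cast
        rfl
      simp_rw [h1]
      rw [integral_complex_ofReal, Complex.ofReal_re]
    have htend : ∀ j, Tendsto (fun i => n2 τ (B j (φ i))) atTop (𝓝 0) := by
      intro j
      have h1 : Tendsto (fun i => ∫ y, ‖e y (B j (φ i)) v‖ ^ 2 ∂ν) atTop
          (𝓝 (∫ _y : Y, (0 : ℝ) ∂ν)) := by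
        refine tendsto_integral_of_dominated_convergence (fun _ => (2 * ‖S‖) ^ 2)
          (fun i => ((hmeas _ v).pow_const 2).aestronglyMeasurable) (integrable_const _)
          (fun i => Eventually.of_forall fun y => ?_) ?_
        · rw [Real.norm_eq_abs, abs_of_nonneg (by positivity)]
          have h2 : ‖e y (B j (φ i)) v‖ ≤ 2 * ‖S‖ := by
            have h3 := (e y (B j (φ i))).le_opNorm v
            rw [hv, mul_one] at h3
            exact h3.trans (hen y j i)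
          exact pow_le_pow_left₀ (norm_nonneg _) h2 2
        · filter_upwards [hc j] with y hy
          have h8 := ((hy v).norm).pow 2
          rw [hc0, zero_smul, norm_zero] at h8
          simpa using h8
      rw [integral_zero] at h1
      simp only [← hsq] at h1
      have h2 := h1.sqrt
      rw [Real.sqrt_zero] at h2
      refine h2.congr fun i => ?_
      exact Real.sqrt_sq (hB1.2.2.2.2.2.2.2.2.1 _)
    have h1 : Tendsto (fun i => ∑ j, n2 τ (B j (φ i))) atTop (𝓝 (∑ _j : Fin M, (0 : ℝ))) :=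
      tendsto_finsetSum _ fun j _ => htend j
    rw [Finset.sum_const_zero] at h1
    have h2 : (1 / 2 : ℝ) ≤ 0 := by
      refine ge_of_tendsto h1 ?_
      filter_upwards [eventually_ge_atTop (6 + M)] with i hi
      exact hlow _ (hi.trans (hφi i))
    norm_num at h2

end Pool.Agent.W338.RO
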